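import Pool.Agent.Run7.h166.TS.Rec2

/-!
# Any set of primes of a record window in a bounded number of lists of gaps

Let `f(X) = log X (log₂ X)² log₄ X / (log₃ X)²`, the size of the largest gaps between consecutive primes
which are known to occur near `X`. There is an absolute number `r` of lists with the following properties.

(1) For some `K`, `C` and `c > 0`, for all large `X` and for ANY set `V` of primes in `(log X / 1000, c f(X)]`:
all elements of `V` with at most `C` exceptions can be arranged in `r` lists such that for any two neighbours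
`s, t` of a list the number `|s - t|` is a gap between consecutive primes near `X`, for at least `X^(7/8)`
places; more precisely for so many `n ∈ (X, 3X]` the numbers `n + s`, `n + t` are consecutive primes, and
the whole window `[n, n + c f(X)]` contains at most `K` primes (so that they are next to gaps of the record size
`≥ c f(X) / (K + 1)`), and `n` is divisible by any given integer.

(2) For every `k`, with `K`, `C`, `c` depending on `k`, one can have in the same number `r` of lists that ANY at
most `k` successive members `h_1, …, h_j` of a list are such that `n + h_1, …, n + h_j` are primes for at least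
`X^(7/8)` such `n`, again in a window of length `c f(X)` with at most `K` primes.

For example `V` = all primes of the window. Up to now a positive proportion of the pairs, and Ramsey type
subsets of `V`, were known to have such properties.

Proof. The coloured Maynard-Tao theorem inside the record windows (starting files,
`Pool.Agent.H362R2.RQ.stRQ`) gives primes in different blocks of shifts, if there are enough blocks; so the graph of
the gaps on `V` has no `(r + 1)`-partite holes, and it is covered by `r` paths up to a bounded number of vertices: the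
end segments of `r + 1` long paths contain an edge, which joins two of them. For (2) the lists end in long
cliques, which are rearranged such that the hits are at the ends.
-/

set_option autoImplicit false

open Filter Finset

namespace Pool.Agent.Results.MP_f9960f_nt.RecordWindowLists

/-- `f(X) = log X (log₂ X)² log₄ X / (log₃ X)²` -/
noncomputable def recordSize (X : ℝ) : ℝ :=
  Real.log X * (Real.log (Real.log X)) ^ 2 * Real.log (Real.log (Real.log (Real.log X))) /
    (Real.log (Real.log (Real.log X))) ^ 2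

open Classical in
/-- The integers `n ∈ (X, 3X]`, divisible by all primes up to `z`, such that all `n + h`, `h ∈ w`, are primes, and
there are at most `K` primes `n + y` with `0 ≤ y ≤ c f(X)`. -/
noncomputable def places (K z : ℕ) (c X : ℝ) (w : Finset ℕ) : Finset ℕ :=
  (Icc 1 ⌊3 * X⌋₊).filter (fun n : ℕ => X < n ∧ (∀ h ∈ w, (n + h).Prime) ∧
    ((range (⌊c * recordSize X⌋₊ + 1)).filter (fun y => (n + y).Prime)).card ≤ K ∧
    ∀ p : ℕ, p.Prime → p ≤ z → p ∣ n)

open Classical in
/-- The places for `{s, t}` at which there is no prime between `n + s` and `n + t`. -/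
noncomputable def consecutivePlaces (K z : ℕ) (c X : ℝ) (s t : ℕ) : Finset ℕ :=
  (places K z c X {s, t}).filter (fun n => ∀ m, n + min s t < m → m < n + max s t → ¬ m.Prime)

/-- The `r` lists contain every element of `V` at most once, nothing else, and all but at most `C` elements. -/
def Arranges {r : ℕ} (V : Finset ℕ) (C : ℕ) (e : Fin r → List ℕ) : Prop :=
  (∀ i, (e i).Nodup) ∧ (∀ i j, i ≠ j → List.Disjoint (e i) (e j)) ∧ (∀ i, ∀ x ∈ e i, x ∈ V) ∧
    (V.filter (fun x => ∀ i, x ∉ e i)).card ≤ C

/-- **Any set of primes of a record window in `r` lists.** -/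
theorem result : ∃ r : ℕ,
    (∃ K C : ℕ, ∃ c : ℝ, 0 < c ∧ ∀ z : ℕ, ∃ X0 : ℝ, ∀ X : ℝ, X0 ≤ X → ∀ V : Finset ℕ,
      (∀ v ∈ V, v.Prime ∧ Real.log X / 1000 < v ∧ (v : ℝ) ≤ c * recordSize X) →
        ∃ e : Fin r → List ℕ, Arranges V C e ∧ ∀ i, (e i).IsChain (fun s t =>
          X ^ (7 / 8 : ℝ) ≤ ((consecutivePlaces K z c X s t).card : ℝ))) ∧
    ∀ k : ℕ, ∃ K C : ℕ, ∃ c : ℝ, 0 < c ∧ ∀ z : ℕ, ∃ X0 : ℝ, ∀ X : ℝ, X0 ≤ X → ∀ V : Finset ℕ,
      (∀ v ∈ V, v.Prime ∧ Real.log X / 1000 < v ∧ (v : ℝ) ≤ c * recordSize X) →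
        ∃ e : Fin r → List ℕ, Arranges V C e ∧ ∀ i, ∀ w : List ℕ, w <:+: e i → w ≠ [] → w.length ≤ k →
          X ^ (7 / 8 : ℝ) ≤ ((places K z c X w.toFinset).card : ℝ) := by
  classical
  obtain ⟨r, ⟨K, C, c, hc, h1⟩, h2⟩ := Pool.Agent.Run7.h166.TS.record_lists
  have hV' : ∀ (X c : ℝ) (V : Finset ℕ),
      (∀ v ∈ V, v.Prime ∧ Real.log X / 1000 < v ∧ (v : ℝ) ≤ c * recordSize X) →
      ∀ v ∈ V, v.Prime ∧ Pool.Agent.H378R2.yy X < v ∧ (v : ℝ) ≤ c * Pool.Agent.H256R2.SC.ff X := by
    intro X c V hV v hv
    obtain ⟨h1, h2, h3⟩ := hV v hv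
    refine ⟨h1, ?_, h3⟩
    unfold Pool.Agent.H378R2.yy
    have h4 : 0 < v := h1.pos
    exact (Nat.floor_lt' (by omega)).2 h2
  refine ⟨r, ⟨K, C, c, hc, fun z => ?_⟩, fun k => ?_⟩
  · obtain ⟨X0, hX0⟩ := h1 z
    refine ⟨X0, fun X hX V hV => ?_⟩
    obtain ⟨e, ⟨he1, he2, he3⟩, he4⟩ := hX0 X hX V (hV' X c V hV)
    refine ⟨e, ⟨fun i => (he1 i).1, he2, he3, le_trans (le_of_eq (by congr 1)) he4⟩, fun i => ?_⟩
    refine (he1 i).2.imp ?_
    intro s t hst
    unfold Pool.Agent.Run7.h166.TS.AdjR at hst
    refine hst.trans ?_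
    rw [Nat.cast_le]
    refine card_le_card ?_
    intro n hn
    unfold Pool.Agent.Run7.h166.TS.RecS at hn
    obtain ⟨hn1, hn2, hn3, hn4, hn5, hn6, hn7⟩ := mem_filter.1 hn
    refine mem_filter.2 ⟨mem_filter.2 ⟨hn1, hn2, ?_, hn6, hn7⟩, hn5⟩
    intro h hh
    rw [mem_insert, mem_singleton] at hh
    rcases hh with rfl | rfl
    · exact hn3
    · exact hn4
  · obtain ⟨K, C, c, hc, h3⟩ := h2 k
    refine ⟨K, C, c, hc, fun z => ?_⟩
    obtain ⟨X0, hX0⟩ := h3 z
    refine ⟨X0, fun X hX V hV => ?_⟩
    obtain ⟨e, he1, he2, he3, he4, he5⟩ := hX0 X hX V (hV' X c V hV)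
    exact ⟨e, ⟨he1, he2, he3, le_trans (le_of_eq (by congr 1)) he4⟩, fun i w hw hw0 hwk => he5 i w hw hw0 hwk⟩

end Pool.Agent.Results.MP_f9960f_nt.RecordWindowLists
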